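import Mathlib

/-!
# MP_bd2bbd_co: a monotone consistent path system of diameter 2 that is not strictly metric

The vertex set `[n]` is modelled by `Fin n` with its order (so the labels are shifted by one).
A path in the complete graph `K_n` from `u` to `v` is a list of distinct vertices starting with
`u` and ending with `v`.

In the labels `1, ..., 7` of the problem the counterexample has the resume
`f(1,7)=5, f(2,4)=1, f(2,5)=3, f(2,7)=6, f(3,4)=7, f(5,6)=4`; all other paths are edges.
-/

namespace Pool.Agent.Results.MP_bd2bbd_co.NotStrictlyMetric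

/-- `l` is a simple path of the complete graph on `Fin n` from `u` to `v`: a list of pairwise
distinct vertices whose first entry is `u` and whose last entry is `v`. -/
def IsPath {n : ℕ} (l : List (Fin n)) (u v : Fin n) : Prop :=
  l.head? = some u ∧ l.getLast? = some v ∧ l.Nodup

/-- A path system on `Fin n`: one simple path `P_{u,v} = P_{v,u}` for every pair of distinct
vertices (the value `path u u` is irrelevant). -/
structure PathSystem (n : ℕ) where
  path : Fin n → Fin n → List (Fin n)
  isPath : ∀ u v, u ≠ v → IsPath (path u v) u v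
  symm : ∀ u v, u ≠ v → path v u = (path u v).reverse

/-- Consistency: if a vertex `a` (other than the ends, for which there is nothing to say) lies on
`P_{u,v}`, then `P_{u,v}` is the concatenation of `P_{u,a}` and `P_{a,v}`. -/
def PathSystem.Consistent {n : ℕ} (P : PathSystem n) : Prop :=
  ∀ u v a, u ≠ v → a ≠ u → a ≠ v → a ∈ P.path u v →
    P.path u v = P.path u a ++ (P.path a v).tail

/-- The diameter of `P` is `d`: `d` is the largest number of edges of a path of `P`. -/
def PathSystem.HasDiameter {n : ℕ} (P : PathSystem n) (d : ℕ) : Prop :=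
  (∀ u v, u ≠ v → (P.path u v).length ≤ d + 1) ∧ ∃ u v, u ≠ v ∧ (P.path u v).length = d + 1

/-- Monotonicity of the resume `f`, where `f(i,j) = z` means `P_{i,j} = i z j`:
`f(i,j) ≤ f(i,k)` whenever both are defined and `j ≤ k`. -/
def PathSystem.Monotone {n : ℕ} (P : PathSystem n) : Prop :=
  ∀ i j k z z', i ≠ j → i ≠ k → j ≤ k → P.path i j = [i, z, j] → P.path i k = [i, z', k] → z ≤ z'

/-- Total weight of a path with respect to an edge weighting `w`. -/
def weight {n : ℕ} (w : Sym2 (Fin n) → ℝ) : List (Fin n) → ℝ
  | a :: b :: l => w s(a, b) + weight w (b :: l)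
  | _ => 0

/-- `P` is strictly metric: some positive weighting of the edges of `K_n` makes every `P_{u,v}`
the unique path of minimum total weight between `u` and `v`. -/
def PathSystem.StrictlyMetric {n : ℕ} (P : PathSystem n) : Prop :=
  ∃ w : Sym2 (Fin n) → ℝ, (∀ a b, a ≠ b → 0 < w s(a, b)) ∧
    ∀ u v, u ≠ v → ∀ q, IsPath q u v → q ≠ P.path u v → weight w (P.path u v) < weight w q

instance {n : ℕ} (l : List (Fin n)) (u v : Fin n) : Decidable (IsPath l u v) := by
  unfold IsPath; infer_instance

/-- The resume of the counterexample, as a table (labels `0, ..., 6`). -/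
def mid (u v : Fin 7) : Option (Fin 7) :=
  if (u = 0 ∧ v = 6) ∨ (u = 6 ∧ v = 0) then some 4 else
  if (u = 1 ∧ v = 3) ∨ (u = 3 ∧ v = 1) then some 0 else
  if (u = 1 ∧ v = 4) ∨ (u = 4 ∧ v = 1) then some 2 else
  if (u = 1 ∧ v = 6) ∨ (u = 6 ∧ v = 1) then some 5 else
  if (u = 2 ∧ v = 3) ∨ (u = 3 ∧ v = 2) then some 6 else
  if (u = 4 ∧ v = 5) ∨ (u = 5 ∧ v = 4) then some 3 else none

/-- The paths of the counterexample. -/
def pth (u v : Fin 7) : List (Fin 7) :=
  match mid u v with
  | some z => [u, z, v]
  | none => [u, v]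

/-- The counterexample. -/
def P7 : PathSystem 7 where
  path := pth
  isPath := by decide
  symm := by decide

theorem P7_consistent : P7.Consistent := by
  unfold PathSystem.Consistent P7
  decide

theorem P7_diameter : P7.HasDiameter 2 := by
  unfold PathSystem.HasDiameter P7
  decide

theorem pth_eq_iff (i j z : Fin 7) : pth i j = [i, z, j] ↔ mid i j = some z := by
  unfold pth
  cases h : mid i j with
  | none => simp
  | some y => simp

theorem mid_mono : ∀ i j k : Fin 7, j ≤ k → ∀ z ∈ mid i j, ∀ z' ∈ mid i k, z ≤ z' := by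
  decide

theorem P7_monotone : P7.Monotone := by
  intro i j k z z' _ _ hjk h1 h2
  exact mid_mono i j k hjk z ((pth_eq_iff i j z).1 h1) z' ((pth_eq_iff i k z').1 h2)

theorem P7_not_strictlyMetric : ¬ P7.StrictlyMetric := by
  rintro ⟨w, -, h⟩
  have key : ∀ u v z y : Fin 7, u ≠ v → pth u v = [u, z, v] → IsPath [u, y, v] u v → y ≠ z →
      w s(u, z) + w s(z, v) < w s(u, y) + w s(y, v) := by
    intro u v z y huv h1 h2 hyz
    have h3 := h u v huv [u, y, v] h2 (by
      change [u, y, v] ≠ pth u v
      rw [h1]; simpa using hyz)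
    have h4 : P7.path u v = [u, z, v] := h1
    rw [h4] at h3
    simpa [weight] using h3
  have e1 := key 0 6 4 3 (by decide) (by decide) (by decide) (by decide)
  have e2 := key 1 3 0 5 (by decide) (by decide) (by decide) (by decide)
  have e3 := key 1 4 2 0 (by decide) (by decide) (by decide) (by decide)
  have e4 := key 1 6 5 2 (by decide) (by decide) (by decide) (by decide)
  have e5 := key 2 3 6 4 (by decide) (by decide) (by decide) (by decide)
  have e6 := key 4 5 3 6 (by decide) (by decide) (by decide) (by decide)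
  have s1 : w s(4, 0) = w s(0, 4) := by rw [Sym2.eq_swap]
  have s2 : w s(3, 0) = w s(0, 3) := by rw [Sym2.eq_swap]
  have s3 : w s(1, 0) = w s(0, 1) := by rw [Sym2.eq_swap]
  have s4 : w s(2, 1) = w s(1, 2) := by rw [Sym2.eq_swap]
  have s5 : w s(4, 2) = w s(2, 4) := by rw [Sym2.eq_swap]
  have s6 : w s(5, 1) = w s(1, 5) := by rw [Sym2.eq_swap]
  have s7 : w s(6, 5) = w s(5, 6) := by rw [Sym2.eq_swap]
  have s8 : w s(6, 3) = w s(3, 6) := by rw [Sym2.eq_swap]
  have s9 : w s(6, 2) = w s(2, 6) := by rw [Sym2.eq_swap]
  have s10 : w s(4, 3) = w s(3, 4) := by rw [Sym2.eq_swap]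
  have s11 : w s(5, 3) = w s(3, 5) := by rw [Sym2.eq_swap]
  have s12 : w s(6, 4) = w s(4, 6) := by rw [Sym2.eq_swap]
  linarith

/-- **Negative answer to Q1.** Not every monotone consistent path system of diameter `2` is
strictly metric. -/
theorem result : ¬ ∀ (n : ℕ) (P : PathSystem n), P.Consistent → P.HasDiameter 2 → P.Monotone →
    P.StrictlyMetric :=
  fun h => P7_not_strictlyMetric (h 7 P7 P7_consistent P7_diameter P7_monotone)

end Pool.Agent.Results.MP_bd2bbd_co.NotStrictlyMetric
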